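import Mathlib
import Pool.Agent.Lib.MP_d1c37f_nt.Main

/-!
An upper bound for the number of solutions of `x y z ≡ c` modulo `p` in a short interval that goes
beyond intervals of length `p ^ (1/8)`.
-/

set_option autoImplicit false

namespace Pool.Agent.Results.MP_d1c37f_nt.BeyondEighth

open Finset Pool.Agent.Lib.MP_d1c37f_nt

theorem card_eq (p : ℕ) (M : ℕ) (L c : ℤ) :
    (((Finset.Icc (L + 1) (L + M)) ×ˢ ((Finset.Icc (L + 1) (L + M)) ×ˢ
        (Finset.Icc (L + 1) (L + M)))).filter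
        (fun t : ℤ × ℤ × ℤ => (p : ℤ) ∣ t.1 * t.2.1 * t.2.2 - c)).card = (Sol p c L M).card := by
  symm
  refine card_bij (fun t _ => (L + t.1, L + t.2.1, L + t.2.2)) ?_ ?_ ?_
  · intro t ht
    unfold Sol at ht
    simp only [mem_filter, mem_product, mem_Icc] at ht ⊢
    obtain ⟨⟨h1, h2, h3⟩, h4⟩ := ht
    exact ⟨⟨by constructor <;> omega, by constructor <;> omega, by constructor <;> omega⟩, h4⟩
  · intro t _ t' _ h
    simp only [Prod.mk.injEq, add_right_inj] at h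
    exact Prod.ext h.1 (Prod.ext h.2.1 h.2.2)
  · intro t ht
    simp only [mem_filter, mem_product, mem_Icc] at ht
    obtain ⟨⟨h1, h2, h3⟩, h4⟩ := ht
    refine ⟨(t.1 - L, t.2.1 - L, t.2.2 - L), ?_, ?_⟩
    · unfold Sol
      simp only [mem_filter, mem_product, mem_Icc]
      refine ⟨⟨by constructor <;> omega, by constructor <;> omega, by constructor <;> omega⟩, ?_⟩
      rw [add_sub_cancel, add_sub_cancel, add_sub_cancel]
      exact h4
    · simp only [add_sub_cancel]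

/-- For every `ε > 0` there is `C` such that for every prime `p`, every `1 ≤ M ≤ p`, every
integer `L` and every `c` not divisible by `p`, the number of `x, y, z` in `[L+1, L+M]` with
`x y z ≡ c` modulo `p` is at most `C M ^ ε (1 + M ^ 2 / p ^ (1/4) + M ^ 4 / p ^ (2/3))`. -/
theorem result :
    ∀ ε : ℝ, 0 < ε → ∃ C : ℝ, ∀ p : ℕ, p.Prime → ∀ M : ℕ, 1 ≤ M → M ≤ p →
      ∀ L c : ℤ, ¬ ((p : ℤ) ∣ c) →
        ((((Finset.Icc (L + 1) (L + M)) ×ˢ ((Finset.Icc (L + 1) (L + M)) ×ˢ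
            (Finset.Icc (L + 1) (L + M)))).filter
            (fun t : ℤ × ℤ × ℤ => (p : ℤ) ∣ t.1 * t.2.1 * t.2.2 - c)).card : ℝ)
          ≤ C * (M : ℝ) ^ ε *
            (1 + (M : ℝ) ^ 2 / (p : ℝ) ^ (1 / 4 : ℝ) + (M : ℝ) ^ 4 / (p : ℝ) ^ (2 / 3 : ℝ)) := by
  intro ε hε
  obtain ⟨C, _, hC⟩ := main_bound ε hε
  refine ⟨C, ?_⟩
  intro p hp M hM hMp L c hc
  have hp0 : (0 : ℝ) < p := by exact_mod_cast hp.pos
  rw [card_eq]
  have h := hC p c L M ((p : ℝ) ^ (1 / 12 : ℝ)) hp hc hM hMp (Real.rpow_pos_of_pos hp0 _) (by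
    rw [← Real.rpow_natCast, ← Real.rpow_mul hp0.le]
    norm_num)
  have e1 : ((p : ℝ) ^ (1 / 12 : ℝ)) ^ 3 = (p : ℝ) ^ (1 / 4 : ℝ) := by
    rw [← Real.rpow_natCast, ← Real.rpow_mul hp0.le]
    norm_num
  have e2 : ((p : ℝ) ^ (1 / 12 : ℝ)) ^ 8 = (p : ℝ) ^ (2 / 3 : ℝ) := by
    rw [← Real.rpow_natCast, ← Real.rpow_mul hp0.le]
    norm_num
  rw [e1, e2] at h
  exact h

end Pool.Agent.Results.MP_d1c37f_nt.BeyondEighth
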